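import Mathlib
import Pool.Agent.H892.KT.Stm

/-!
# Task KT-JLIN: conjugation by linear maps
-/

set_option autoImplicit false

open Filter Topology Set

namespace Pool.Agent.H411.KT

open Pool.Agent.H892.KT

theorem t_JLIN (h1 : S_JCOMP) (h2 : S_JLINBG) : S_JLIN := by
  intro k h A hh
  obtain ⟨e, he, ho⟩ := hh
  obtain ⟨a, ha, ha'⟩ := h2 A
  obtain ⟨b, hb, hb'⟩ := h2 A.symm
  refine ⟨(a.trans e).trans b, h1 _ _ (h1 _ _ ha he) hb, ?_⟩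
  have hA0 : Tendsto (fun y : ℂ × ℂ => A y) (𝓝 0) (𝓝 0) := by
    have h3 := A.continuous.tendsto (0 : ℂ × ℂ)
    rw [map_zero] at h3
    exact h3
  have h4 : (fun y : ℂ × ℂ => e (A y) - A y - h (A y)) =O[𝓝 0] fun y => ‖A y‖ ^ (k + 1) :=
    ho.comp_tendsto hA0
  have h5 : (fun y : ℂ × ℂ => A y) =O[𝓝 0] fun y : ℂ × ℂ => y :=
    (A : (ℂ × ℂ) →L[ℂ] (ℂ × ℂ)).isBigO_id (𝓝 0)
  have h6 : (fun y : ℂ × ℂ => ‖A y‖ ^ (k + 1)) =O[𝓝 0] fun y : ℂ × ℂ => ‖y‖ ^ (k + 1) :=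
    h5.norm_norm.pow (k + 1)
  have h7 : (fun y : ℂ × ℂ => A.symm (e (A y) - A y - h (A y))) =O[𝓝 0]
      fun y : ℂ × ℂ => e (A y) - A y - h (A y) :=
    (A.symm : (ℂ × ℂ) →L[ℂ] (ℂ × ℂ)).isBigO_comp _ _
  have h8 : ∀ y : ℂ × ℂ, ((a.trans e).trans b) y - y - A.symm (h (A y)) =
      A.symm (e (A y) - A y - h (A y)) := by
    intro y
    rw [OpenPartialHomeomorph.trans_apply, OpenPartialHomeomorph.trans_apply, hb', ha', map_sub,
      map_sub, ContinuousLinearEquiv.symm_apply_apply]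
  have h9 := (h7.trans h4).trans h6
  exact h9.congr_left fun y => (h8 y).symm

end Pool.Agent.H411.KT
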